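import Mathlib
set_option autoImplicit false

/-! # MP_98699e_co: balanced sets and disjoint two-coloured pairs -/

open Finset

namespace Pool.Agent.Helper58.DS

/-- `2 h` elements, every colour at most `h` times -/
def Bal {V K : Type} [DecidableEq K] (f : V → K) (h : ℕ) (S : Finset V) : Prop :=
  S.card = 2 * h ∧ ∀ k, (S.filter (fun x => f x = k)).card ≤ h

theorem card_pair_sdiff {V : Type} [DecidableEq V] {S : Finset V} {x y : V} (hx : x ∈ S)
    (hy : y ∈ S) (hxy : x ≠ y) : (S \ {x, y}).card + 2 = S.card := by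
  have h1 : ({x, y} : Finset V) ⊆ S := by
    intro z hz
    rw [Finset.mem_insert, Finset.mem_singleton] at hz
    rcases hz with rfl | rfl
    · exact hx
    · exact hy
  have h2 := Finset.card_sdiff_add_card_eq_card h1
  rw [Finset.card_pair hxy] at h2
  exact h2

theorem filter_sdiff_card {V : Type} [DecidableEq V] (S R : Finset V) (p : V → Prop)
    [DecidablePred p] : ((S \ R).filter p).card + ((S ∩ R).filter p).card = (S.filter p).card := by
  rw [← Finset.card_union_of_disjoint]
  · congr 1
    ext z
    simp only [Finset.mem_union, Finset.mem_filter, Finset.mem_sdiff, Finset.mem_inter]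
    tauto
  · rw [Finset.disjoint_left]
    intro z hz hz'
    simp only [Finset.mem_filter, Finset.mem_sdiff, Finset.mem_inter] at hz hz'
    tauto

/-- a pair with one element in a class of `h` elements can be removed from a balanced set -/
theorem bal_remove {V K : Type} [DecidableEq V] [DecidableEq K] {f : V → K} {h : ℕ} {S : Finset V}
    (hS : Bal f (h + 1) S) {x y : V} (hx : x ∈ S) (hy : y ∈ S) {k : K} (hk : f x = k)
    (hk' : f y ≠ k) (hc : (S.filter (fun x => f x = k)).card = h + 1) : Bal f h (S \ {x, y}) := by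
  have hxy : x ≠ y := by
    rintro rfl
    exact hk' hk
  refine ⟨?_, fun l => ?_⟩
  · have := card_pair_sdiff hx hy hxy
    have h2 := hS.1
    omega
  · by_cases hl : l = k
    · subst hl
      have h1 := filter_sdiff_card S {x, y} (fun z => f z = l)
      have h2 : 1 ≤ ((S ∩ {x, y}).filter (fun z => f z = l)).card := by
        apply Finset.card_pos.2
        exact ⟨x, by simp [hx, hk]⟩
      omega
    · have h1 := filter_sdiff_card S {x, y} (fun z => f z = k)
      have h3 : ((S ∩ {x, y}).filter (fun z => f z = k)).card ≤ 1 := by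
        rw [Finset.card_le_one]
        intro a ha b hb
        simp only [Finset.mem_filter, Finset.mem_inter, Finset.mem_insert,
          Finset.mem_singleton] at ha hb
        rcases ha with ⟨⟨-, rfl | rfl⟩, ha⟩ <;> rcases hb with ⟨⟨-, rfl | rfl⟩, hb⟩
        · rfl
        · exact absurd hb hk'
        · exact absurd ha hk'
        · rfl
      have h4 : ((S \ {x, y}).filter (fun z => f z = l)).card +
          ((S \ {x, y}).filter (fun z => f z = k)).card ≤ (S \ {x, y}).card := by
        rw [← Finset.card_union_of_disjoint]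
        · apply Finset.card_le_card
          intro z hz
          rw [Finset.mem_union, Finset.mem_filter, Finset.mem_filter] at hz
          rcases hz with hz | hz
          · exact hz.1
          · exact hz.1
        · rw [Finset.disjoint_left]
          intro z hz hz'
          rw [Finset.mem_filter] at hz hz'
          exact hl (hz.2.symm.trans hz'.2)
      have h5 := card_pair_sdiff hx hy hxy
      have h6 := hS.1
      omega

/-- if no class has `h + 1` elements every pair can be removed -/
theorem bal_remove' {V K : Type} [DecidableEq V] [DecidableEq K] {f : V → K} {h : ℕ} {S : Finset V}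
    (hS : Bal f (h + 1) S) {x y : V} (hx : x ∈ S) (hy : y ∈ S) (hxy : x ≠ y)
    (hc : ∀ k, (S.filter (fun x => f x = k)).card ≠ h + 1) : Bal f h (S \ {x, y}) := by
  refine ⟨?_, fun l => ?_⟩
  · have := card_pair_sdiff hx hy hxy
    have h2 := hS.1
    omega
  · have h1 := filter_sdiff_card S {x, y} (fun z => f z = l)
    have h2 := hS.2 l
    have h3 := hc l
    omega

/-- GP: every element of a balanced set is in a removable pair of two colours -/
theorem bal_pair {V K : Type} [DecidableEq V] [DecidableEq K] {f : V → K} {h : ℕ} {S : Finset V}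
    (hS : Bal f (h + 1) S) {y : V} (hy : y ∈ S) :
    ∃ x ∈ S, f x ≠ f y ∧ Bal f h (S \ {y, x}) := by
  by_cases h1 : ∃ k, k ≠ f y ∧ (S.filter (fun x => f x = k)).card = h + 1
  · obtain ⟨k, hk, hc⟩ := h1
    have h2 : (S.filter (fun x => f x = k)).Nonempty := by
      apply Finset.card_pos.1
      omega
    obtain ⟨x, hx⟩ := h2
    rw [Finset.mem_filter] at hx
    refine ⟨x, hx.1, by rw [hx.2]; exact hk, ?_⟩
    rw [Finset.pair_comm]
    exact bal_remove hS hx.1 hy hx.2 (fun h => hk h.symm) hc
  · push Not at h1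
    have h2 : ∃ x ∈ S, f x ≠ f y := by
      by_contra hcon
      push Not at hcon
      have h3 : S.filter (fun x => f x = f y) = S := Finset.filter_true_of_mem hcon
      have h4 := hS.2 (f y)
      rw [h3, hS.1] at h4
      omega
    obtain ⟨x, hx, hxy⟩ := h2
    refine ⟨x, hx, hxy, ?_⟩
    by_cases h5 : (S.filter (fun x => f x = f y)).card = h + 1
    · exact bal_remove hS hy hx rfl hxy h5
    · apply bal_remove' hS hy hx (fun h => hxy (by rw [h]))
      intro k
      by_cases hk : k = f y
      · rw [hk]
        exact h5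
      · exact h1 k hk

/-- removing a pair from a balanced set such that a given disjoint-or-single pair is avoided -/
theorem bal_avoid {V K : Type} [DecidableEq V] [DecidableEq K] {f : V → K} {h : ℕ} {S : Finset V}
    (hS : Bal f (h + 1) S) {y y' : V} (hyy : ¬ (y ∈ S ∧ y' ∈ S)) :
    ∃ S' ⊆ S, y ∉ S' ∧ y' ∉ S' ∧ Bal f h S' := by
  have hne : S.Nonempty := by
    apply Finset.card_pos.1
    rw [hS.1]
    omega
  by_cases hy : y ∈ S
  · obtain ⟨x, hx, -, hb⟩ := bal_pair hS hy
    refine ⟨_, Finset.sdiff_subset, ?_, ?_, hb⟩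
    · simp
    · intro h
      exact hyy ⟨hy, (Finset.mem_sdiff.1 h).1⟩
  · by_cases hy' : y' ∈ S
    · obtain ⟨x, hx, -, hb⟩ := bal_pair hS hy'
      refine ⟨_, Finset.sdiff_subset, ?_, ?_, hb⟩
      · intro h
        exact hy (Finset.mem_sdiff.1 h).1
      · simp
    · obtain ⟨z, hz⟩ := hne
      obtain ⟨x, hx, -, hb⟩ := bal_pair hS hz
      refine ⟨_, Finset.sdiff_subset, ?_, ?_, hb⟩
      · intro h
        exact hy (Finset.mem_sdiff.1 h).1
      · intro h
        exact hy' (Finset.mem_sdiff.1 h).1

/-- every colour is missed by at least `b` elements -/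
def Miss {V K : Type} [DecidableEq K] (g : V → K) (b : ℕ) (N : Finset V) : Prop :=
  ∀ k, b ≤ (N.filter (fun x => g x ≠ k)).card

theorem card_split {V K : Type} [DecidableEq K] (g : V → K) (N : Finset V) (k : K) :
    (N.filter (fun x => g x = k)).card + (N.filter (fun x => g x ≠ k)).card = N.card :=
  Finset.card_filter_add_card_filter_not _

/-- ST: the step -/
theorem step {V K : Type} [DecidableEq V] [DecidableEq K] {f g : V → K} {h b : ℕ}
    {S N : Finset V} (hS : Bal f (h + 1) S) (hN : 2 * (h + 1) ≤ N.card) (hb : b ≤ h)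
    (hM : Miss g (b + 1) N) :
    ∃ y ∈ N, ∃ y' ∈ N, g y ≠ g y' ∧ Miss g b (N \ {y, y'}) ∧
      ∃ S' ⊆ S, y ∉ S' ∧ y' ∉ S' ∧ Bal f h S' := by
  classical
  obtain ⟨Al, hAl1, hAl2, hAl3, hAl4⟩ : ∃ Al : V → V → Prop,
      (∀ y y', Al y y' → y ∈ N ∧ y' ∈ N ∧ g y ≠ g y' ∧ Miss g b (N \ {y, y'})) ∧
      (∀ y ∈ N, ∃ y', Al y y' ∨ Al y' y) ∧
      (∃ y y', Al y y') ∧
      (∀ P : V → Prop, (∃ x ∈ N, P x) → (∃ x ∈ N, ¬ P x) →
        ∃ y y', Al y y' ∧ ((P y ∧ ¬ P y') ∨ (¬ P y ∧ P y'))) := by
    by_cases ht : ∃ k, (N.filter (fun x => g x ≠ k)).card = b + 1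
    · obtain ⟨k, hk⟩ := ht
      have hsp := card_split g N k
      have hne1 : (N.filter (fun x => g x ≠ k)).Nonempty := Finset.card_pos.1 (by omega)
      have hne2 : (N.filter (fun x => g x = k)).Nonempty := Finset.card_pos.1 (by omega)
      obtain ⟨y1, hy1⟩ := hne1
      obtain ⟨y2, hy2⟩ := hne2
      rw [Finset.mem_filter] at hy1 hy2
      refine ⟨fun y y' => y ∈ N ∧ y' ∈ N ∧ g y ≠ k ∧ g y' = k, ?_, ?_, ?_, ?_⟩
      · rintro y y' ⟨h1, h2, h3, h4⟩
        refine ⟨h1, h2, by rw [h4]; exact h3, fun l => ?_⟩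
        by_cases hl : l = k
        · subst hl
          have h5 := filter_sdiff_card N {y, y'} (fun z => g z ≠ l)
          have h6 : ((N ∩ {y, y'}).filter (fun z => g z ≠ l)).card ≤ 1 := by
            rw [Finset.card_le_one]
            intro a ha c hc
            simp only [Finset.mem_filter, Finset.mem_inter, Finset.mem_insert,
              Finset.mem_singleton] at ha hc
            rcases ha with ⟨⟨-, rfl | rfl⟩, ha⟩ <;> rcases hc with ⟨⟨-, rfl | rfl⟩, hc⟩
            · rfl
            · exact absurd h4 hc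
            · exact absurd h4 ha
            · rfl
          omega
        · have h5 := filter_sdiff_card N {y, y'} (fun z => g z = k)
          have h6 : ((N ∩ {y, y'}).filter (fun z => g z = k)).card ≤ 1 := by
            rw [Finset.card_le_one]
            intro a ha c hc
            simp only [Finset.mem_filter, Finset.mem_inter, Finset.mem_insert,
              Finset.mem_singleton] at ha hc
            rcases ha with ⟨⟨-, rfl | rfl⟩, ha⟩ <;> rcases hc with ⟨⟨-, rfl | rfl⟩, hc⟩
            · rfl
            · exact absurd ha h3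
            · exact absurd hc h3
            · rfl
          have h7 : ((N \ {y, y'}).filter (fun z => g z = k)).card ≤
              ((N \ {y, y'}).filter (fun z => g z ≠ l)).card := by
            apply Finset.card_le_card
            intro z hz
            rw [Finset.mem_filter] at hz ⊢
            refine ⟨hz.1, ?_⟩
            rw [hz.2]
            exact fun h => hl h.symm
          omega
      · intro y hy
        by_cases hg : g y = k
        · exact ⟨y1, Or.inr ⟨hy1.1, hy, hy1.2, hg⟩⟩
        · exact ⟨y2, Or.inl ⟨hy, hy2.1, hg, hy2.2⟩⟩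
      · exact ⟨y1, y2, hy1.1, hy2.1, hy1.2, hy2.2⟩
      · rintro P ⟨x, hx, hPx⟩ ⟨x', hx', hPx'⟩
        by_contra hcon
        push Not at hcon
        have key : ∀ y y', y ∈ N → y' ∈ N → g y ≠ k → g y' = k → (P y ↔ P y') := by
          intro y y' h1 h2 h3 h4
          have h5 := hcon y y' ⟨h1, h2, h3, h4⟩
          tauto
        have hall : ∀ z ∈ N, (P z ↔ P y1) := by
          intro z hz
          by_cases hg : g z = k
          · exact (key y1 z hy1.1 hz hy1.2 hg).symm
          · exact (key z y2 hz hy2.1 hg hy2.2).trans (key y1 y2 hy1.1 hy2.1 hy1.2 hy2.2).symm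
        exact hPx' ((hall x' hx').2 ((hall x hx).1 hPx))
    · push Not at ht
      have hM2 : ∀ k, b + 2 ≤ (N.filter (fun x => g x ≠ k)).card := by
        intro k
        have h1 := hM k
        have h2 := ht k
        omega
      have hmv : ∀ y ∈ N, ∃ y' ∈ N, g y ≠ g y' := by
        intro y hy
        have h1 := hM2 (g y)
        obtain ⟨z, hz⟩ := Finset.card_pos.1 (by omega : 0 < (N.filter (fun x => g x ≠ g y)).card)
        rw [Finset.mem_filter] at hz
        exact ⟨z, hz.1, fun h => hz.2 h.symm⟩
      obtain ⟨y0, hy0⟩ : N.Nonempty := Finset.card_pos.1 (by omega)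
      refine ⟨fun y y' => y ∈ N ∧ y' ∈ N ∧ g y ≠ g y', ?_, ?_, ?_, ?_⟩
      · rintro y y' ⟨h1, h2, h3⟩
        refine ⟨h1, h2, h3, fun l => ?_⟩
        have h5 := filter_sdiff_card N {y, y'} (fun z => g z ≠ l)
        have h6 : ((N ∩ {y, y'}).filter (fun z => g z ≠ l)).card ≤ 2 := by
          refine (Finset.card_le_card (Finset.filter_subset _ _)).trans ?_
          refine (Finset.card_le_card Finset.inter_subset_right).trans ?_
          exact Finset.card_le_two
        have h7 := hM2 l
        omega
      · intro y hy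
        obtain ⟨y', hy', hg⟩ := hmv y hy
        exact ⟨y', Or.inl ⟨hy, hy', hg⟩⟩
      · obtain ⟨y', hy', hg⟩ := hmv y0 hy0
        exact ⟨y0, y', hy0, hy', hg⟩
      · rintro P ⟨x, hx, hPx⟩ ⟨x', hx', hPx'⟩
        by_contra hcon
        push Not at hcon
        have key : ∀ y y', y ∈ N → y' ∈ N → g y ≠ g y' → (P y ↔ P y') := by
          intro y y' h1 h2 h3
          have h5 := hcon y y' ⟨h1, h2, h3⟩
          tauto
        have hxx : g x = g x' := by
          by_contra h
          exact hPx' ((key x x' hx hx' h).1 hPx)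
        obtain ⟨z, hz, hgz⟩ := hmv x hx
        have h1 := key x z hx hz hgz
        have h2 := key x' z hx' hz (by rw [← hxx]; exact hgz)
        exact hPx' (h2.2 (h1.1 hPx))
  by_cases hout : ∃ y y', Al y y' ∧ ¬ (y ∈ S ∧ y' ∈ S)
  · obtain ⟨y, y', ha, hns⟩ := hout
    obtain ⟨h1, h2, h3, h4⟩ := hAl1 y y' ha
    exact ⟨y, h1, y', h2, h3, h4, bal_avoid hS hns⟩
  · push Not at hout
    have hNS : N ⊆ S := by
      intro y hy
      obtain ⟨y', ha | ha⟩ := hAl2 y hy
      · exact (hout y y' ha).1
      · exact (hout y' y ha).2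
    have hEq : N = S := by
      apply Finset.eq_of_subset_of_card_le hNS
      rw [hS.1]
      exact hN
    by_cases hfull : ∃ k, (S.filter (fun x => f x = k)).card = h + 1
    · obtain ⟨k, hk⟩ := hfull
      have hsp := card_split f S k
      have hS1 := hS.1
      obtain ⟨x1, hx1⟩ : (S.filter (fun x => f x = k)).Nonempty := Finset.card_pos.1 (by omega)
      obtain ⟨x2, hx2⟩ : (S.filter (fun x => f x ≠ k)).Nonempty := Finset.card_pos.1 (by omega)
      rw [Finset.mem_filter] at hx1 hx2
      obtain ⟨y, y', ha, hP⟩ := hAl4 (fun z => f z = k) ⟨x1, by rw [hEq]; exact hx1.1, hx1.2⟩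
        ⟨x2, by rw [hEq]; exact hx2.1, hx2.2⟩
      obtain ⟨h1, h2, h3, h4⟩ := hAl1 y y' ha
      have hy : y ∈ S := by rw [← hEq]; exact h1
      have hy' : y' ∈ S := by rw [← hEq]; exact h2
      refine ⟨y, h1, y', h2, h3, h4, S \ {y, y'}, Finset.sdiff_subset, by simp, by simp, ?_⟩
      rcases hP with ⟨hp1, hp2⟩ | ⟨hp1, hp2⟩
      · exact bal_remove hS hy hy' hp1 hp2 hk
      · rw [Finset.pair_comm]
        exact bal_remove hS hy' hy hp2 hp1 hk
    · push Not at hfull
      obtain ⟨y, y', ha⟩ := hAl3
      obtain ⟨h1, h2, h3, h4⟩ := hAl1 y y' ha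
      have hy : y ∈ S := by rw [← hEq]; exact h1
      have hy' : y' ∈ S := by rw [← hEq]; exact h2
      refine ⟨y, h1, y', h2, h3, h4, S \ {y, y'}, Finset.sdiff_subset, by simp, by simp, ?_⟩
      exact bal_remove' hS hy hy' (fun h => h3 (by rw [h])) hfull

end Pool.Agent.Helper58.DS
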