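import Mathlib
import Pool.Agent.Helper58.DS.Pairs
set_option autoImplicit false

/-! # MP_98699e_co: sums over disjoint pairs and over classes (Cauchy-Davenport) -/

open Finset
open scoped Pointwise

namespace Pool.Agent.Helper58.DS

variable {p : ℕ}

theorem cd_pair (hp : p.Prime) {K : Finset (ZMod p)} (hK : K.Nonempty) {x y : ZMod p}
    (hxy : x ≠ y) : min p (K.card + 1) ≤ (K + {x, y}).card := by
  have h1 := ZMod.cauchy_davenport hp hK (t := {x, y}) ⟨x, by simp⟩
  rw [Finset.card_pair hxy] at h1
  exact h1

/-- all sums of `a` elements of `S` and `b` elements of `N` -/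
theorem sums (hp : p.Prime) {V : Type} [DecidableEq V] (f g : V → ZMod p) :
    ∀ (b a : ℕ) (S N : Finset V), Bal f (a + b) S → 2 * (a + b) ≤ N.card → Miss g b N →
    ∃ K : Finset (ZMod p), K.Nonempty ∧ min p (a + b + 1) ≤ K.card ∧ ∀ t ∈ K,
      ∃ A ⊆ S, ∃ B ⊆ N, A.card = a ∧ B.card = b ∧ Disjoint A B ∧
        ∑ x ∈ A, f x + ∑ x ∈ B, g x = t := by
  intro b
  induction b with
  | zero =>
    intro a
    induction a with
    | zero =>
      intro S N _ _ _
      refine ⟨{0}, ⟨0, by simp⟩, by simp, fun t ht => ?_⟩
      rw [Finset.mem_singleton] at ht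
      exact ⟨∅, by simp, ∅, by simp, by simp, by simp, by simp, by simp [ht]⟩
    | succ a ih =>
      intro S N hS hN hM
      have hne : S.Nonempty := by
        apply Finset.card_pos.1
        rw [hS.1]
        omega
      obtain ⟨y, hy⟩ := hne
      have hS' : Bal f (a + 1) S := hS
      obtain ⟨x, hx, hfx, hb⟩ := bal_pair hS' hy
      obtain ⟨K, hK, hc, hA⟩ := ih (S \ {y, x}) N hb (by omega) (fun k => Nat.zero_le _)
      refine ⟨K + {f x, f y}, hK.add ⟨f x, by simp⟩, ?_, fun t ht => ?_⟩
      · have h1 := cd_pair hp hK hfx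
        omega
      · rw [Finset.mem_add] at ht
        obtain ⟨t', ht', s, hs, rfl⟩ := ht
        obtain ⟨A, hAS, B, hBN, hAc, hBc, hd, hsum⟩ := hA t' ht'
        have hB : B = ∅ := Finset.card_eq_zero.1 hBc
        subst hB
        have hxA : x ∉ A := fun h => by
          have := hAS h
          simp at this
        have hyA : y ∉ A := fun h => by
          have := hAS h
          simp at this
        rw [Finset.mem_insert, Finset.mem_singleton] at hs
        rcases hs with rfl | rfl
        · refine ⟨insert x A, ?_, ∅, by simp, ?_, by simp, by simp, ?_⟩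
          · exact Finset.insert_subset hx (hAS.trans Finset.sdiff_subset)
          · rw [Finset.card_insert_of_notMem hxA, hAc]
          · rw [Finset.sum_insert hxA, ← hsum]
            ring
        · refine ⟨insert y A, ?_, ∅, by simp, ?_, by simp, by simp, ?_⟩
          · exact Finset.insert_subset hy (hAS.trans Finset.sdiff_subset)
          · rw [Finset.card_insert_of_notMem hyA, hAc]
          · rw [Finset.sum_insert hyA, ← hsum]
            ring
  | succ b ih =>
    intro a S N hS hN hM
    obtain ⟨y, hy, y', hy', hg, hM', S', hS', hyS, hyS', hb⟩ :=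
      step (h := a + b) (b := b) hS (by omega) (by omega) hM
    have hyy : y ≠ y' := fun h => hg (by rw [h])
    have hcard := card_pair_sdiff hy hy' hyy
    obtain ⟨K, hK, hc, hA⟩ := ih a S' (N \ {y, y'}) hb (by omega) hM'
    refine ⟨K + {g y, g y'}, hK.add ⟨g y, by simp⟩, ?_, fun t ht => ?_⟩
    · have h1 := cd_pair hp hK hg
      omega
    · rw [Finset.mem_add] at ht
      obtain ⟨t', ht', s, hs, rfl⟩ := ht
      obtain ⟨A, hAS, B, hBN, hAc, hBc, hd, hsum⟩ := hA t' ht'
      have hyB : y ∉ B := fun h => by
        have := hBN h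
        simp at this
      have hyB' : y' ∉ B := fun h => by
        have := hBN h
        simp at this
      rw [Finset.mem_insert, Finset.mem_singleton] at hs
      rcases hs with rfl | rfl
      · refine ⟨A, hAS.trans hS', insert y B, ?_, hAc, ?_, ?_, ?_⟩
        · exact Finset.insert_subset hy (hBN.trans Finset.sdiff_subset)
        · rw [Finset.card_insert_of_notMem hyB, hBc]
        · rw [Finset.disjoint_insert_right]
          exact ⟨fun h => hyS (hAS h), hd⟩
        · rw [Finset.sum_insert hyB, ← hsum]
          ring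
      · refine ⟨A, hAS.trans hS', insert y' B, ?_, hAc, ?_, ?_, ?_⟩
        · exact Finset.insert_subset hy' (hBN.trans Finset.sdiff_subset)
        · rw [Finset.card_insert_of_notMem hyB', hBc]
        · rw [Finset.disjoint_insert_right]
          exact ⟨fun h => hyS' (hAS h), hd⟩
        · rw [Finset.sum_insert hyB', ← hsum]
          ring

/-- TRIM -/
theorem trim {V K : Type} [DecidableEq V] [DecidableEq K] (f : V → K) (h : ℕ) (N : Finset V)
    (hN : 2 * h ≤ N.card) (hM : Miss f h N) : ∃ S ⊆ N, Bal f h S := by
  by_cases hc : ∃ k, h < (N.filter (fun x => f x = k)).card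
  · obtain ⟨k, hk⟩ := hc
    obtain ⟨S1, hS1, hc1⟩ := Finset.exists_subset_card_eq hk.le
    obtain ⟨S2, hS2, hc2⟩ := Finset.exists_subset_card_eq (hM k)
    have hd : Disjoint S1 S2 := by
      rw [Finset.disjoint_left]
      intro z hz hz'
      have h1 := Finset.mem_filter.1 (hS1 hz)
      have h2 := Finset.mem_filter.1 (hS2 hz')
      exact h2.2 h1.2
    refine ⟨S1 ∪ S2, ?_, ?_, fun l => ?_⟩
    · apply Finset.union_subset
      · exact hS1.trans (Finset.filter_subset _ _)
      · exact hS2.trans (Finset.filter_subset _ _)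
    · rw [Finset.card_union_of_disjoint hd, hc1, hc2]
      omega
    · by_cases hl : l = k
      · subst hl
        rw [← hc1]
        apply Finset.card_le_card
        intro z hz
        rw [Finset.mem_filter, Finset.mem_union] at hz
        rcases hz.1 with h1 | h1
        · exact h1
        · exact absurd hz.2 (Finset.mem_filter.1 (hS2 h1)).2
      · rw [← hc2]
        apply Finset.card_le_card
        intro z hz
        rw [Finset.mem_filter, Finset.mem_union] at hz
        rcases hz.1 with h1 | h1
        · have h2 := (Finset.mem_filter.1 (hS1 h1)).2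
          exact absurd (hz.2.symm.trans h2) hl
        · exact h1
  · push Not at hc
    obtain ⟨S, hS, hcS⟩ := Finset.exists_subset_card_eq hN
    refine ⟨S, hS, hcS, fun k => ?_⟩
    refine le_trans (Finset.card_le_card ?_) (hc k)
    exact Finset.filter_subset_filter _ hS

/-- all sums at a rich vertex and a neighbour which is not very poor -/
theorem full (hp : p.Prime) {V : Type} [DecidableEq V] (f g : V → ZMod p) (a b : ℕ)
    (hab : a + b + 1 = p) (N M : Finset V) (hN : 2 * (a + b) ≤ N.card) (hfN : Miss f (a + b) N)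
    (hM : 2 * (a + b) ≤ M.card) (hgM : Miss g b M) (t : ZMod p) :
    ∃ A ⊆ N, ∃ B ⊆ M, A.card = a ∧ B.card = b ∧ Disjoint A B ∧
      ∑ x ∈ A, f x + ∑ x ∈ B, g x = t := by
  obtain ⟨S, hS, hb⟩ := trim f (a + b) N hN hfN
  obtain ⟨K, hK, hc, hA⟩ := sums hp f g b a S M hb hM hgM
  have : Fact p.Prime := ⟨hp⟩
  have hu : K = Finset.univ := by
    apply Finset.eq_univ_of_card
    rw [ZMod.card]
    apply le_antisymm
    · have := Finset.card_le_univ K
      rw [ZMod.card] at this
      exact this
    · rw [hab, min_self] at hc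
      exact hc
  obtain ⟨A, hAS, B, hBM, h1, h2, h3, h4⟩ := hA t (by rw [hu]; exact Finset.mem_univ t)
  exact ⟨A, hAS.trans hS, B, hBM, h1, h2, h3, h4⟩

/-- sums over disjoint classes with distinct values -/
theorem multi (hp : p.Prime) {V : Type} [DecidableEq V] (f : V → ZMod p) (C : ℕ → Finset V) :
    ∀ n : ℕ, (∀ j < n, (C j).Nonempty) → (∀ j < n, Set.InjOn f (C j : Set V)) →
    (∀ i < n, ∀ j < n, i ≠ j → Disjoint (C i) (C j)) →
    ∃ K : Finset (ZMod p), K.Nonempty ∧
      (p ≤ K.card ∨ ∑ j ∈ range n, (C j).card + 1 ≤ K.card + n) ∧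
      ∀ t ∈ K, ∃ A ⊆ (range n).biUnion C, A.card = n ∧ ∑ x ∈ A, f x = t := by
  intro n
  induction n with
  | zero =>
    intro _ _ _
    refine ⟨{0}, ⟨0, by simp⟩, Or.inr (by simp), fun t ht => ?_⟩
    rw [Finset.mem_singleton] at ht
    exact ⟨∅, by simp, by simp, by simp [ht]⟩
  | succ n ih =>
    intro hne hinj hdis
    obtain ⟨K, hK, hc, hA⟩ := ih (fun j hj => hne j (by omega)) (fun j hj => hinj j (by omega))
      (fun i hi j hj => hdis i (by omega) j (by omega))
    have hCn := hne n (by omega)
    have himg : ((C n).image f).card = (C n).card := Finset.card_image_of_injOn (hinj n (by omega))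
    have hcd := ZMod.cauchy_davenport hp hK (hCn.image f)
    rw [himg] at hcd
    have hpos : 1 ≤ (C n).card := hCn.card_pos
    have hKpos : 1 ≤ K.card := hK.card_pos
    refine ⟨K + (C n).image f, hK.add (hCn.image f), ?_, fun t ht => ?_⟩
    · rw [Finset.sum_range_succ]
      rcases hc with hc | hc
      · left
        omega
      · by_cases h : p ≤ (K + (C n).image f).card
        · exact Or.inl h
        · right
          omega
    · rw [Finset.mem_add] at ht
      obtain ⟨t', ht', s, hs, rfl⟩ := ht
      obtain ⟨A, hAS, hAc, hsum⟩ := hA t' ht'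
      obtain ⟨x, hx, rfl⟩ := Finset.mem_image.1 hs
      have hxA : x ∉ A := by
        intro h
        obtain ⟨j, hj, hxj⟩ := Finset.mem_biUnion.1 (hAS h)
        have hj' := Finset.mem_range.1 hj
        exact Finset.disjoint_left.1 (hdis j (by omega) n (by omega) (by omega)) hxj hx
      refine ⟨insert x A, ?_, ?_, ?_⟩
      · apply Finset.insert_subset
        · exact Finset.mem_biUnion.2 ⟨n, by simp, hx⟩
        · refine hAS.trans ?_
          apply Finset.biUnion_subset_biUnion_of_subset_left
          exact Finset.range_subset_range.2 (by omega)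
      · rw [Finset.card_insert_of_notMem hxA, hAc]
      · rw [Finset.sum_insert hxA, hsum]
        ring

/-- classes with distinct values -/
theorem classes {V : Type} [DecidableEq V] (f : V → ZMod p) (a n : ℕ) (han : a + 1 ≤ n)
    (S : Finset V) (hS : S.card = n) (hcol : ∀ k, (S.filter (fun x => f x = k)).card ≤ a + 1)
    (hp : p.Prime) :
    ∃ C : ℕ → Finset V, (∀ j < a + 1, (C j).Nonempty) ∧
      (∀ j < a + 1, Set.InjOn f (C j : Set V)) ∧
      (∀ i < a + 1, ∀ j < a + 1, i ≠ j → Disjoint (C i) (C j)) ∧
      (∀ j, C j ⊆ S) ∧ ∑ j ∈ range (a + 1), (C j).card = n := by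
  classical
  have : Fact p.Prime := ⟨hp⟩
  let e : Fin n ≃ S := (S.equivFinOfCardEq hS).symm
  let g : Fin n → ℕ := fun i => (f (e i)).val
  let σ : Equiv.Perm (Fin n) := Tuple.sort g
  have hmono : Monotone (g ∘ σ) := Tuple.monotone_sort g
  let h : Fin n → V := fun i => (e (σ i) : V)
  have hinj : Function.Injective h := by
    intro i j hij
    have h1 : e (σ i) = e (σ j) := Subtype.ext hij
    exact σ.injective (e.injective h1)
  have hmem : ∀ i, h i ∈ S := fun i => (e (σ i)).2
  have hval : ∀ i j : Fin n, i ≤ j → (f (h i)).val ≤ (f (h j)).val := fun i j hij => hmono hij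
  have hgap : ∀ i j : Fin n, i ≤ j → f (h i) = f (h j) → j.val - i.val ≤ a := by
    intro i j hij hf
    have h1 : ((Finset.Icc i j).image h).card ≤ a + 1 := by
      refine le_trans (Finset.card_le_card ?_) (hcol (f (h i)))
      intro z hz
      obtain ⟨k, hk, rfl⟩ := Finset.mem_image.1 hz
      rw [Finset.mem_Icc] at hk
      rw [Finset.mem_filter]
      refine ⟨hmem k, ?_⟩
      apply ZMod.val_injective
      apply le_antisymm
      · rw [hf]
        exact hval k j hk.2
      · exact hval i k hk.1
    rw [Finset.card_image_of_injective _ hinj, Fin.card_Icc] at h1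
    omega
  refine ⟨fun j => (Finset.univ.filter (fun i : Fin n => i.val % (a + 1) = j)).image h,
    ?_, ?_, ?_, ?_, ?_⟩
  · intro j hj
    refine ⟨h ⟨j, by omega⟩, Finset.mem_image.2 ⟨⟨j, by omega⟩, ?_, rfl⟩⟩
    rw [Finset.mem_filter]
    exact ⟨Finset.mem_univ _, Nat.mod_eq_of_lt hj⟩
  · intro j _ x hx y hy hxy
    rw [Finset.mem_coe, Finset.mem_image] at hx hy
    obtain ⟨i, hi, rfl⟩ := hx
    obtain ⟨k, hk, rfl⟩ := hy
    rw [Finset.mem_filter] at hi hk
    have hik : i.val = k.val := by
      rcases le_total i k with hle | hle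
      · have h1 := hgap i k hle hxy
        have h2 : i.val ≤ k.val := hle
        have h3 : i.val ≡ k.val [MOD (a + 1)] := by
          unfold Nat.ModEq
          rw [hi.2, hk.2]
        have h4 := (Nat.modEq_iff_dvd' h2).1 h3
        have h5 : k.val - i.val = 0 := Nat.eq_zero_of_dvd_of_lt h4 (by omega)
        omega
      · have h1 := hgap k i hle hxy.symm
        have h2 : k.val ≤ i.val := hle
        have h3 : k.val ≡ i.val [MOD (a + 1)] := by
          unfold Nat.ModEq
          rw [hi.2, hk.2]
        have h4 := (Nat.modEq_iff_dvd' h2).1 h3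
        have h5 : i.val - k.val = 0 := Nat.eq_zero_of_dvd_of_lt h4 (by omega)
        omega
    rw [Fin.ext hik]
  · intro i _ j _ hij
    rw [Finset.disjoint_left]
    intro x hx hy
    rw [Finset.mem_image] at hx hy
    obtain ⟨k, hk, rfl⟩ := hx
    obtain ⟨l, hl, hlk⟩ := hy
    rw [Finset.mem_filter] at hk hl
    have h1 := hinj hlk
    subst h1
    exact hij (hk.2.symm.trans hl.2)
  · intro j x hx
    obtain ⟨k, -, rfl⟩ := Finset.mem_image.1 hx
    exact hmem k
  · have h1 : ∀ j, ((Finset.univ.filter (fun i : Fin n => i.val % (a + 1) = j)).image h).card =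
        (Finset.univ.filter (fun i : Fin n => i.val % (a + 1) = j)).card := fun j =>
      Finset.card_image_of_injective _ hinj
    simp only [h1]
    have h2 := Finset.card_eq_sum_card_fiberwise (f := fun i : Fin n => i.val % (a + 1))
      (s := Finset.univ) (t := range (a + 1)) (fun i _ => by
        simp only [Finset.coe_range, Set.mem_Iio]
        exact Nat.mod_lt _ (by omega))
    rw [← h2, Finset.card_univ, Fintype.card_fin]

/-- W: weighted Erdos-Ginzburg-Ziv with one weight different from one -/
theorem weighted (hp : p.Prime) {V : Type} [DecidableEq V] (f : V → ZMod p) (a : ℕ) (w : ZMod p)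
    (hw : w ≠ 0) (S : Finset V) (hS : p + a ≤ S.card)
    (hcol : ∀ k, (S.filter (fun x => f x = k)).card ≤ a + 1) :
    ∃ v ∈ S, ∃ A ⊆ S, v ∉ A ∧ A.card = a ∧ w * f v + ∑ x ∈ A, f x = 0 := by
  have : Fact p.Prime := ⟨hp⟩
  obtain ⟨S', hS', hc'⟩ := Finset.exists_subset_card_eq hS
  obtain ⟨C, hne, hinj, hdis, hsub, hsum⟩ := classes f a (p + a) (by have := hp.one_lt; omega) S' hc'
    (fun k => le_trans (Finset.card_le_card (Finset.filter_subset_filter _ hS')) (hcol k)) hp
  obtain ⟨K, hK, hc, hA⟩ := multi hp f C a (fun j hj => hne j (by omega))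
    (fun j hj => hinj j (by omega)) (fun i hi j hj => hdis i (by omega) j (by omega))
  have hCa := hne a (by omega)
  have himg : ((C a).image (fun x => w * f x)).card = (C a).card := by
    apply Finset.card_image_of_injOn
    intro x hx y hy hxy
    exact hinj a (by omega) hx hy (mul_left_cancel₀ hw hxy)
  have hcd := ZMod.cauchy_davenport hp hK (hCa.image (fun x => w * f x))
  rw [himg] at hcd
  have hpos : 1 ≤ (C a).card := hCa.card_pos
  have hKpos : 1 ≤ K.card := hK.card_pos
  rw [Finset.sum_range_succ] at hsum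
  have hu : K + (C a).image (fun x => w * f x) = Finset.univ := by
    apply Finset.eq_univ_of_card
    rw [ZMod.card]
    apply le_antisymm
    · have := Finset.card_le_univ (K + (C a).image (fun x => w * f x))
      rw [ZMod.card] at this
      exact this
    · rcases hc with hc | hc
      · omega
      · omega
  have h0 : (0 : ZMod p) ∈ K + (C a).image (fun x => w * f x) := by
    rw [hu]
    exact Finset.mem_univ 0
  rw [Finset.mem_add] at h0
  obtain ⟨t, ht, s, hs, hts⟩ := h0
  obtain ⟨A, hAS, hAc, hAsum⟩ := hA t ht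
  obtain ⟨v, hv, rfl⟩ := Finset.mem_image.1 hs
  refine ⟨v, hS' (hsub a hv), A, ?_, ?_, hAc, ?_⟩
  · intro x hx
    obtain ⟨j, -, hxj⟩ := Finset.mem_biUnion.1 (hAS hx)
    exact hS' (hsub j hxj)
  · intro h
    obtain ⟨j, hj, hxj⟩ := Finset.mem_biUnion.1 (hAS h)
    have hj' := Finset.mem_range.1 hj
    exact Finset.disjoint_left.1 (hdis j (by omega) a (by omega) (by omega)) hxj hv
  · rw [hAsum, add_comm]
    exact hts

end Pool.Agent.Helper58.DS
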