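import Mathlib
import Pool.Agent.Helper58.DS.Sums
set_option autoImplicit false

/-! # MP_98699e_co: double stars in a graph of minimum degree `2 p - 1` -/

open Finset

namespace Pool.Agent.Helper58.DS

section

variable {p : ℕ} {V : Type} [Fintype V] [DecidableEq V] (G : SimpleGraph V)
  [DecidableRel G.Adj] (c : Sym2 V → ZMod p)

/-- edges of colour `k` at `w` -/
def dk (k : ZMod p) (w : V) : ℕ := ((G.neighborFinset w).filter (fun x => c s(w, x) = k)).card

/-- edges of another colour at `w` -/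
def nk (k : ZMod p) (w : V) : ℕ := ((G.neighborFinset w).filter (fun x => c s(w, x) ≠ k)).card

/-- a zero-sum double star -/
def Copy (a b : ℕ) : Prop :=
  ∃ u v, G.Adj u v ∧ ∃ A ⊆ (G.neighborFinset u).erase v, ∃ B ⊆ (G.neighborFinset v).erase u,
    A.card = a ∧ B.card = b ∧ Disjoint A B ∧
      c s(u, v) + ∑ x ∈ A, c s(u, x) + ∑ y ∈ B, c s(v, y) = 0

variable {G c}

theorem dk_add_nk (k : ZMod p) (w : V) : dk G c k w + nk G c k w = G.degree w := by
  unfold dk nk
  rw [← SimpleGraph.card_neighborFinset_eq_degree]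
  exact Finset.card_filter_add_card_filter_not _

theorem dk_le_nk {k l : ZMod p} (hkl : k ≠ l) (w : V) : dk G c k w ≤ nk G c l w := by
  unfold dk nk
  apply Finset.card_le_card
  intro x hx
  rw [Finset.mem_filter] at hx ⊢
  refine ⟨hx.1, ?_⟩
  rw [hx.2]
  exact hkl

theorem fact1 {a b : ℕ} (hab : a + b + 1 = p) (hno : ¬ Copy G c a b) {k : ZMod p} {v w : V}
    (hv : p ≤ dk G c k v) (hvw : G.Adj v w) (hc : c s(v, w) = k) : dk G c k w ≤ b := by
  by_contra hcon
  push Not at hcon
  apply hno
  have hwv : v ∈ (G.neighborFinset w).filter (fun x => c s(w, x) = k) := by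
    rw [Finset.mem_filter, SimpleGraph.mem_neighborFinset, Sym2.eq_swap]
    exact ⟨hvw.symm, hc⟩
  have hvw' : w ∈ (G.neighborFinset v).filter (fun x => c s(v, x) = k) := by
    rw [Finset.mem_filter, SimpleGraph.mem_neighborFinset]
    exact ⟨hvw, hc⟩
  have h1 : b ≤ (((G.neighborFinset w).filter (fun x => c s(w, x) = k)).erase v).card := by
    rw [Finset.card_erase_of_mem hwv]
    unfold dk at hcon
    omega
  obtain ⟨B, hB, hBc⟩ := Finset.exists_subset_card_eq h1
  have h2 : a ≤ ((((G.neighborFinset v).filter (fun x => c s(v, x) = k)).erase w) \ B).card := by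
    have h3 := Finset.le_card_sdiff B
      (((G.neighborFinset v).filter (fun x => c s(v, x) = k)).erase w)
    rw [Finset.card_erase_of_mem hvw'] at h3
    unfold dk at hv
    omega
  obtain ⟨A, hA, hAc⟩ := Finset.exists_subset_card_eq h2
  refine ⟨v, w, hvw, A, ?_, B, ?_, hAc, hBc, ?_, ?_⟩
  · intro x hx
    have h3 := Finset.mem_sdiff.1 (hA hx)
    have h4 := Finset.mem_erase.1 h3.1
    rw [Finset.mem_erase]
    exact ⟨h4.1, (Finset.mem_filter.1 h4.2).1⟩
  · intro x hx
    have h4 := Finset.mem_erase.1 (hB hx)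
    rw [Finset.mem_erase]
    exact ⟨h4.1, (Finset.mem_filter.1 h4.2).1⟩
  · rw [Finset.disjoint_left]
    intro x hx hx'
    exact (Finset.mem_sdiff.1 (hA hx)).2 hx'
  · have h5 : ∑ x ∈ A, c s(v, x) = ∑ x ∈ A, k := by
      apply Finset.sum_congr rfl
      intro x hx
      have h3 := Finset.mem_sdiff.1 (hA hx)
      have h4 := Finset.mem_erase.1 h3.1
      exact (Finset.mem_filter.1 h4.2).2
    have h6 : ∑ x ∈ B, c s(w, x) = ∑ x ∈ B, k := by
      apply Finset.sum_congr rfl
      intro x hx
      have h4 := Finset.mem_erase.1 (hB hx)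
      exact (Finset.mem_filter.1 h4.2).2
    rw [h5, h6, hc, Finset.sum_const, Finset.sum_const, hAc, hBc, nsmul_eq_mul, nsmul_eq_mul]
    have h7 : k + (a : ZMod p) * k + (b : ZMod p) * k = ((a + b + 1 : ℕ) : ZMod p) * k := by
      push_cast
      ring
    rw [h7, hab, ZMod.natCast_self, zero_mul]

theorem fact2 (hp : p.Prime) {a b : ℕ} (hab : a + b + 1 = p)
    (hdeg : ∀ v, 2 * p - 1 ≤ G.degree v) (hno : ¬ Copy G c a b) {u v : V}
    (hu : ∀ k, p ≤ nk G c k u) (huv : G.Adj u v) : ∃ k, nk G c k v ≤ b := by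
  by_contra hcon
  push Not at hcon
  apply hno
  have hvN : v ∈ G.neighborFinset u := by
    rw [SimpleGraph.mem_neighborFinset]
    exact huv
  have huM : u ∈ G.neighborFinset v := by
    rw [SimpleGraph.mem_neighborFinset]
    exact huv.symm
  have hcN : ((G.neighborFinset u).erase v).card + 1 = G.degree u := by
    rw [Finset.card_erase_add_one hvN, SimpleGraph.card_neighborFinset_eq_degree]
  have hcM : ((G.neighborFinset v).erase u).card + 1 = G.degree v := by
    rw [Finset.card_erase_add_one huM, SimpleGraph.card_neighborFinset_eq_degree]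
  have hd1 := hdeg u
  have hd2 := hdeg v
  have miss : ∀ (x y : V) (k : ZMod p), nk G c k x ≤
      (((G.neighborFinset x).erase y).filter (fun z => c s(x, z) ≠ k)).card + 1 := by
    intro x y k
    unfold nk
    rw [Finset.filter_erase]
    have h1 := Finset.pred_card_le_card_erase
      (s := (G.neighborFinset x).filter (fun z => c s(x, z) ≠ k)) (a := y)
    omega
  obtain ⟨A, hA, B, hB, hAc, hBc, hd, hsum⟩ := full hp (fun x => c s(u, x)) (fun x => c s(v, x))
    a b hab ((G.neighborFinset u).erase v) ((G.neighborFinset v).erase u) (by omega)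
    (fun k => by
      have h1 := miss u v k
      have h2 := hu k
      change a + b ≤ (((G.neighborFinset u).erase v).filter (fun z => c s(u, z) ≠ k)).card
      omega)
    (by omega)
    (fun k => by
      have h1 := miss v u k
      have h2 := hcon k
      change b ≤ (((G.neighborFinset v).erase u).filter (fun z => c s(v, z) ≠ k)).card
      omega)
    (-(c s(u, v)))
  refine ⟨u, v, huv, A, hA, B, hB, hAc, hBc, hd, ?_⟩
  rw [add_assoc, hsum, add_neg_cancel]

end

section

variable {p : ℕ} {V : Type} [Fintype V] [DecidableEq V] {G : SimpleGraph V}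
  [DecidableRel G.Adj] {c : Sym2 V → ZMod p}

/-- the counting: a rich vertex with few edges which are minor at the other end -/
theorem count {b : ℕ} (hb : 2 * b ≤ 2 * p - 1) (hb1 : b < p) [Nonempty V]
    (hdeg : ∀ v, 2 * p - 1 ≤ G.degree v) (al : V → ZMod p) (Po : V → Prop) [DecidablePred Po]
    (hPo : ∀ w, Po w → nk G c (al w) w < p)
    (hM1 : ∀ w x, Po w → Po x → G.Adj w x → c s(w, x) = al w → c s(w, x) ≠ al x)
    (hM2 : ∀ u v, ¬ Po u → G.Adj u v → Po v ∧ nk G c (al v) v ≤ b) :
    ∃ u, ¬ Po u ∧ (2 * p - 1) *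
      ((G.neighborFinset u).filter (fun x => c s(u, x) ≠ al x)).card ≤ b * G.degree u := by
  classical
  obtain ⟨P, hP⟩ : ∃ P : Finset V, P = Finset.univ.filter Po := ⟨_, rfl⟩
  obtain ⟨U, hU⟩ : ∃ U : Finset V, U = Finset.univ.filter (fun w => ¬ Po w) := ⟨_, rfl⟩
  have memP : ∀ w, w ∈ P ↔ Po w := by
    intro w
    rw [hP]
    simp
  have memU : ∀ w, w ∈ U ↔ ¬ Po w := by
    intro w
    rw [hU]
    simp
  obtain ⟨dP, hdP⟩ : ∃ dP : V → ℕ, ∀ z, dP z = ∑ x ∈ P, if G.Adj z x then 1 else 0 :=
    ⟨_, fun _ => rfl⟩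
  obtain ⟨dU, hdU⟩ : ∃ dU : V → ℕ, ∀ z, dU z = ∑ x ∈ U, if G.Adj z x then 1 else 0 :=
    ⟨_, fun _ => rfl⟩
  obtain ⟨sP, hsP⟩ : ∃ sP : V → ℕ, ∀ z, sP z =
      ∑ x ∈ P, if G.Adj z x ∧ c s(z, x) ≠ al z then 1 else 0 := ⟨_, fun _ => rfl⟩
  obtain ⟨sU, hsU⟩ : ∃ sU : V → ℕ, ∀ z, sU z =
      ∑ x ∈ U, if G.Adj z x ∧ c s(z, x) ≠ al z then 1 else 0 := ⟨_, fun _ => rfl⟩
  obtain ⟨mP, hmP⟩ : ∃ mP : V → ℕ, ∀ z, mP z =
      ∑ x ∈ P, if G.Adj z x ∧ c s(z, x) = al z then 1 else 0 := ⟨_, fun _ => rfl⟩
  obtain ⟨m, hm⟩ : ∃ m : V → ℕ, ∀ u, m u =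
      ((G.neighborFinset u).filter (fun x => c s(u, x) ≠ al x)).card := ⟨_, fun _ => rfl⟩
  have hsplit : ∀ F : V → ℕ, ∑ x, F x = ∑ x ∈ P, F x + ∑ x ∈ U, F x := by
    intro F
    rw [hP, hU]
    exact (Finset.sum_filter_add_sum_filter_not _ _ _).symm
  have hcount : ∀ (z : V) (q : V → Prop) [DecidablePred q],
      ((G.neighborFinset z).filter q).card = ∑ x, if G.Adj z x ∧ q x then 1 else 0 := by
    intro z q _
    rw [Finset.card_eq_sum_ones, ← Finset.sum_filter]
    apply Finset.sum_congr
    · ext x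
      simp only [Finset.mem_filter, SimpleGraph.mem_neighborFinset, Finset.mem_univ, true_and]
    · intro _ _
      rfl
  have hd : ∀ z, G.degree z = dP z + dU z := by
    intro z
    rw [hdP, hdU, ← hsplit, ← SimpleGraph.card_neighborFinset_eq_degree,
      Finset.card_eq_sum_ones, ← Finset.sum_filter]
    apply Finset.sum_congr
    · ext x
      simp only [Finset.mem_filter, SimpleGraph.mem_neighborFinset, Finset.mem_univ, true_and]
    · intro _ _
      rfl
  have hs : ∀ z, nk G c (al z) z = sP z + sU z := by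
    intro z
    rw [hsP, hsU, ← hsplit]
    exact hcount z _
  have hdm : ∀ z, dP z = mP z + sP z := by
    intro z
    rw [hdP, hmP, hsP, ← Finset.sum_add_distrib]
    apply Finset.sum_congr rfl
    intro x _
    by_cases h1 : G.Adj z x
    · by_cases h2 : c s(z, x) = al z
      · simp [h1, h2]
      · simp [h1, h2]
    · simp [h1]
  have hC1 : ∑ z ∈ P, mP z ≤ ∑ z ∈ P, sP z := by
    have h1 : ∑ z ∈ P, sP z = ∑ z ∈ P, ∑ x ∈ P, if G.Adj z x ∧ c s(z, x) ≠ al x then 1 else 0 := by
      rw [Finset.sum_comm]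
      apply Finset.sum_congr rfl
      intro z _
      rw [hsP]
      apply Finset.sum_congr rfl
      intro x _
      exact if_congr (by rw [G.adj_comm z x, Sym2.eq_swap]) rfl rfl
    rw [h1]
    apply Finset.sum_le_sum
    intro z hz
    rw [hmP]
    apply Finset.sum_le_sum
    intro x hx
    by_cases h2 : G.Adj z x ∧ c s(z, x) = al z
    · rw [if_pos h2, if_pos ⟨h2.1, hM1 z x ((memP z).1 hz) ((memP x).1 hx) h2.1 h2.2⟩]
    · rw [if_neg h2]
      exact Nat.zero_le _
  have hC1' : ∑ z ∈ P, dP z ≤ 2 * ∑ z ∈ P, sP z := by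
    have h1 : ∑ z ∈ P, dP z = ∑ z ∈ P, mP z + ∑ z ∈ P, sP z := by
      rw [← Finset.sum_add_distrib]
      exact Finset.sum_congr rfl fun z _ => hdm z
    omega
  have hrichU : ∀ u, ¬ Po u → dU u = 0 := by
    intro u hu
    rw [hdU]
    apply Finset.sum_eq_zero
    intro x hx
    rw [if_neg]
    intro hadj
    exact (memU x).1 hx (hM2 u x hu hadj).1
  have hC2 : ∑ u ∈ U, m u = ∑ z ∈ P, sU z := by
    have h1 : ∑ z ∈ P, sU z = ∑ u ∈ U, ∑ z ∈ P, if G.Adj u z ∧ c s(u, z) ≠ al z then 1 else 0 := by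
      rw [Finset.sum_comm]
      apply Finset.sum_congr rfl
      intro z _
      rw [hsU]
      apply Finset.sum_congr rfl
      intro x _
      exact if_congr (by rw [G.adj_comm z x, Sym2.eq_swap]) rfl rfl
    rw [h1]
    apply Finset.sum_congr rfl
    intro u hu
    rw [hm, hcount, hsplit]
    have h2 : ∑ x ∈ U, (if G.Adj u x ∧ c s(u, x) ≠ al x then 1 else 0) = 0 := by
      apply Finset.sum_eq_zero
      intro x hx
      rw [if_neg]
      intro hadj
      exact (memU x).1 hx (hM2 u x ((memU u).1 hu) hadj.1).1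
    rw [h2, add_zero]
  have hC3 : ∑ u ∈ U, G.degree u = ∑ z ∈ P, dU z := by
    have h1 : ∑ z ∈ P, dU z = ∑ u ∈ U, ∑ z ∈ P, if G.Adj u z then 1 else 0 := by
      rw [Finset.sum_comm]
      apply Finset.sum_congr rfl
      intro z _
      rw [hdU]
      apply Finset.sum_congr rfl
      intro x _
      exact if_congr (G.adj_comm z x) rfl rfl
    rw [h1]
    apply Finset.sum_congr rfl
    intro u hu
    rw [hd, hrichU u ((memU u).1 hu), add_zero, hdP]
  have hUne : U.Nonempty := by
    rw [Finset.nonempty_iff_ne_empty]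
    intro hUe
    have hall : ∀ z, Po z := by
      intro z
      by_contra hz
      have := (memU z).2 hz
      rw [hUe] at this
      exact absurd this (Finset.notMem_empty z)
    have hPu : P = Finset.univ := by
      ext z
      simp [memP, hall]
    have h1 : ∑ z ∈ P, (2 * sP z) < ∑ z ∈ P, dP z := by
      apply Finset.sum_lt_sum_of_nonempty
      · rw [hPu]
        exact Finset.univ_nonempty
      · intro z _
        have h2 := hPo z (hall z)
        rw [hs] at h2
        have h3 := hdeg z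
        rw [hd] at h3
        have h4 : dU z = 0 := by
          rw [hdU, hUe, Finset.sum_empty]
        omega
    rw [← Finset.mul_sum] at h1
    omega
  by_contra hcon
  push Not at hcon
  have h1 : ∑ u ∈ U, b * G.degree u < ∑ u ∈ U, (2 * p - 1) * m u := by
    apply Finset.sum_lt_sum_of_nonempty hUne
    intro u hu
    rw [hm]
    exact hcon u ((memU u).1 hu)
  rw [← Finset.mul_sum, ← Finset.mul_sum, hC2, hC3] at h1
  have h2 : ∑ z ∈ P, (b * (2 * sP z) + (2 * p - 1) * sU z) ≤ ∑ z ∈ P, (b * dP z + b * dU z) := by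
    apply Finset.sum_le_sum
    intro z hz
    have h3 := hdeg z
    have h4 := hPo z ((memP z).1 hz)
    rw [hs] at h4
    rw [← mul_add, ← hd]
    by_cases h5 : ∃ u, ¬ Po u ∧ G.Adj u z
    · obtain ⟨u, hu, hadj⟩ := h5
      have h6 := (hM2 u z hu hadj).2
      rw [hs] at h6
      calc b * (2 * sP z) + (2 * p - 1) * sU z = (2 * b) * sP z + (2 * p - 1) * sU z := by ring
        _ ≤ (2 * p - 1) * sP z + (2 * p - 1) * sU z :=
            Nat.add_le_add_right (Nat.mul_le_mul_right _ hb) _
        _ = (2 * p - 1) * (sP z + sU z) := by ring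
        _ ≤ (2 * p - 1) * b := Nat.mul_le_mul_left _ h6
        _ = b * (2 * p - 1) := Nat.mul_comm _ _
        _ ≤ b * G.degree z := Nat.mul_le_mul_left _ h3
    · push Not at h5
      have h6 : sU z = 0 := by
        rw [hsU]
        apply Finset.sum_eq_zero
        intro x hx
        rw [if_neg]
        intro hadj
        exact h5 x ((memU x).1 hx) hadj.1.symm
      rw [h6, mul_zero, add_zero]
      apply Nat.mul_le_mul_left
      omega
  rw [Finset.sum_add_distrib, Finset.sum_add_distrib, ← Finset.mul_sum, ← Finset.mul_sum,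
    ← Finset.mul_sum, ← Finset.mul_sum, ← Finset.mul_sum] at h2
  have h3 : b * ∑ z ∈ P, dP z ≤ b * (2 * ∑ z ∈ P, sP z) := Nat.mul_le_mul_left _ hC1'
  omega

/-- double stars with `a + b + 2 = p + 1` vertices, `b ≤ a` -/
theorem host (hp : p.Prime) {a b : ℕ} (hab : a + b + 1 = p) (hba : b ≤ a) [Nonempty V]
    (hdeg : ∀ v, 2 * p - 1 ≤ G.degree v) : Copy G c a b := by
  classical
  by_contra hno
  have hex : ∀ w, ∃ k, (∃ l, nk G c l w < p) → nk G c k w < p := by
    intro w
    by_cases h : ∃ l, nk G c l w < p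
    · obtain ⟨l, hl⟩ := h
      exact ⟨l, fun _ => hl⟩
    · exact ⟨0, fun h' => absurd h' h⟩
  choose al hal using hex
  have hmaj : ∀ w, nk G c (al w) w < p → p ≤ dk G c (al w) w := by
    intro w hw
    have h1 := dk_add_nk (G := G) (c := c) (al w) w
    have h2 := hdeg w
    omega
  have hM1 : ∀ w x, nk G c (al w) w < p → nk G c (al x) x < p → G.Adj w x →
      c s(w, x) = al w → c s(w, x) ≠ al x := by
    intro w x hw hx hadj hc hcx
    have h1 := fact1 hab hno (hmaj w hw) hadj hc
    have h2 := hmaj x hx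
    rw [← hcx, hc] at h2
    omega
  have hM2 : ∀ u v, ¬ nk G c (al u) u < p → G.Adj u v →
      nk G c (al v) v < p ∧ nk G c (al v) v ≤ b := by
    intro u v hu hadj
    have hrich : ∀ k, p ≤ nk G c k u := by
      intro k
      by_contra hk
      exact hu (hal u ⟨k, by omega⟩)
    obtain ⟨k, hk⟩ := fact2 hp hab hdeg hno hrich hadj
    have h1 : nk G c (al v) v < p := hal v ⟨k, by omega⟩
    have h2 : k = al v := by
      by_contra hne
      have h3 := dk_le_nk (G := G) (c := c) hne v
      have h4 := dk_add_nk (G := G) (c := c) k v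
      have h5 := hdeg v
      omega
    rw [← h2] at h1 ⊢
    exact ⟨h1, hk⟩
  obtain ⟨u, hu, hmu⟩ := count (G := G) (c := c) (b := b) (by omega) (by omega) hdeg al
    (fun w => nk G c (al w) w < p) (fun w hw => hw) hM1 hM2
  obtain ⟨N1, hN1⟩ : ∃ N1 : Finset V,
      N1 = (G.neighborFinset u).filter (fun x => c s(u, x) = al x) := ⟨_, rfl⟩
  have hcard : N1.card + ((G.neighborFinset u).filter (fun x => c s(u, x) ≠ al x)).card =
      G.degree u := by
    rw [hN1, ← SimpleGraph.card_neighborFinset_eq_degree]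
    exact Finset.card_filter_add_card_filter_not _
  have hN1c : p + a ≤ N1.card := by
    by_contra hlt
    push Not at hlt
    obtain ⟨q, hq⟩ : ∃ q, q = 2 * p - 1 := ⟨_, rfl⟩
    have hqa : q = p + a + b := by omega
    have h1 := hdeg u
    rw [← hq] at h1 hmu
    have h2 : q * G.degree u = q * N1.card + q *
        ((G.neighborFinset u).filter (fun x => c s(u, x) ≠ al x)).card := by
      rw [← mul_add, hcard]
    have h3 : q * (N1.card + 1) ≤ q * (p + a) := Nat.mul_le_mul_left _ hlt
    have h4 : (p + a) * q ≤ (p + a) * G.degree u := Nat.mul_le_mul_left _ h1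
    have h5 : q * G.degree u = (p + a) * G.degree u + b * G.degree u := by
      rw [hqa]
      ring
    have hqpos : 0 < q := by
      have := hp.pos
      omega
    nlinarith
  have hcol : ∀ k, (N1.filter (fun x => c s(u, x) = k)).card ≤ a + 1 := by
    intro k
    by_cases hne : (N1.filter (fun x => c s(u, x) = k)).Nonempty
    · obtain ⟨x, hx⟩ := hne
      rw [Finset.mem_filter, hN1, Finset.mem_filter, SimpleGraph.mem_neighborFinset] at hx
      obtain ⟨⟨hadj, hxa⟩, hxk⟩ := hx
      have h1 := (hM2 u x hu hadj).1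
      have h2 := hmaj x h1
      have h3 : al x = k := by rw [← hxa, hxk]
      rw [h3] at h2
      have h4 : c s(x, u) = k := by
        rw [Sym2.eq_swap]
        exact hxk
      have h5 := fact1 hab hno h2 hadj.symm h4
      have h6 : (N1.filter (fun x => c s(u, x) = k)).card ≤ dk G c k u := by
        unfold dk
        apply Finset.card_le_card
        intro z hz
        rw [Finset.mem_filter, hN1, Finset.mem_filter] at hz
        rw [Finset.mem_filter]
        exact ⟨hz.1.1, hz.2⟩
      omega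
    · rw [Finset.not_nonempty_iff_eq_empty] at hne
      rw [hne, Finset.card_empty]
      omega
  have hw : ((b + 1 : ℕ) : ZMod p) ≠ 0 := by
    intro h
    rw [ZMod.natCast_eq_zero_iff] at h
    have h1 := Nat.le_of_dvd (by omega) h
    have ha : a = 0 := by omega
    have hb0 : b = 0 := by omega
    have := hp.one_lt
    omega
  obtain ⟨v, hv, A, hA, hvA, hAc, hsum⟩ :=
    weighted hp (fun x => c s(u, x)) a ((b + 1 : ℕ) : ZMod p) hw N1 hN1c hcol
  rw [hN1, Finset.mem_filter, SimpleGraph.mem_neighborFinset] at hv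
  obtain ⟨huv, hvc⟩ := hv
  obtain ⟨hv1, hv2⟩ := hM2 u v hu huv
  have hB1 : b ≤ ((((G.neighborFinset v).filter (fun x => c s(v, x) = al v)).erase u) \ A).card := by
    have h3 := Finset.le_card_sdiff A
      (((G.neighborFinset v).filter (fun x => c s(v, x) = al v)).erase u)
    have h4 := Finset.pred_card_le_card_erase
      (s := (G.neighborFinset v).filter (fun x => c s(v, x) = al v)) (a := u)
    have h5 := dk_add_nk (G := G) (c := c) (al v) v
    have h6 := hdeg v
    unfold dk at h5
    omega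
  obtain ⟨B, hB, hBc⟩ := Finset.exists_subset_card_eq hB1
  apply hno
  refine ⟨u, v, huv, A, ?_, B, ?_, hAc, hBc, ?_, ?_⟩
  · intro x hx
    have h3 := hA hx
    rw [hN1, Finset.mem_filter] at h3
    rw [Finset.mem_erase]
    refine ⟨?_, h3.1⟩
    rintro rfl
    exact hvA hx
  · intro x hx
    have h3 := Finset.mem_sdiff.1 (hB hx)
    have h4 := Finset.mem_erase.1 h3.1
    rw [Finset.mem_erase]
    exact ⟨h4.1, (Finset.mem_filter.1 h4.2).1⟩
  · rw [Finset.disjoint_right]
    intro x hx
    exact (Finset.mem_sdiff.1 (hB hx)).2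
  · have h6 : ∑ x ∈ B, c s(v, x) = ∑ x ∈ B, c s(u, v) := by
      apply Finset.sum_congr rfl
      intro x hx
      have h3 := Finset.mem_sdiff.1 (hB hx)
      have h4 := Finset.mem_erase.1 h3.1
      rw [(Finset.mem_filter.1 h4.2).2, hvc]
    rw [h6, Finset.sum_const, hBc, nsmul_eq_mul, ← hsum]
    push_cast
    ring

end

end Pool.Agent.Helper58.DS
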