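import Mathlib
import Pool.Agent.Helper58.DS.Host
set_option autoImplicit false

/-! # MP_98699e_co: from double stars to trees with a dominating edge -/

open Finset

namespace Pool.Agent.Helper58.DS

theorem exists_map {X Y : Type} [DecidableEq X] (S : Finset X) (R : Finset Y)
    (h : S.card = R.card) (y0 : Y) : ∃ φ : X → Y, (∀ x ∈ S, φ x ∈ R) ∧
      Set.InjOn φ (S : Set X) ∧ Set.SurjOn φ (S : Set X) (R : Set Y) := by
  have e : S ≃ R := Finset.equivOfCardEq h
  refine ⟨fun x => if hx : x ∈ S then (e ⟨x, hx⟩ : Y) else y0, ?_, ?_, ?_⟩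
  · intro x hx
    simp only [hx, dif_pos]
    exact (e ⟨x, hx⟩).2
  · intro x hx y hy hxy
    have hx' : x ∈ S := hx
    have hy' : y ∈ S := hy
    simp only [hx', hy', dif_pos] at hxy
    have h1 := e.injective (Subtype.ext hxy)
    exact congrArg Subtype.val h1
  · intro y hy
    have hy' : y ∈ R := hy
    refine ⟨(e.symm ⟨y, hy'⟩ : X), (e.symm ⟨y, hy'⟩).2, ?_⟩
    have h1 : (e.symm ⟨y, hy'⟩ : X) ∈ S := (e.symm ⟨y, hy'⟩).2
    change (if hx : (e.symm ⟨y, hy'⟩ : X) ∈ S then (e ⟨(e.symm ⟨y, hy'⟩ : X), hx⟩ : Y) else y0) = y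
    rw [dif_pos h1]
    simp only [Subtype.coe_eta, Equiv.apply_symm_apply]

theorem copy_swap {p : ℕ} {V : Type} [Fintype V] [DecidableEq V] {G : SimpleGraph V}
    [DecidableRel G.Adj] {c : Sym2 V → ZMod p} {a b : ℕ} (h : Copy G c a b) : Copy G c b a := by
  obtain ⟨u, v, huv, A, hA, B, hB, hAc, hBc, hd, hs⟩ := h
  refine ⟨v, u, huv.symm, B, hB, A, hA, hBc, hAc, hd.symm, ?_⟩
  rw [← hs, Sym2.eq_swap (a := v) (b := u)]
  ring

theorem tree {m : ℕ} (hm : m.Prime) (T : SimpleGraph (Fin (m + 1))) [DecidableRel T.Adj]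
    (hT : T.IsTree) (s t : Fin (m + 1)) (hst : T.Adj s t)
    (hdom : ∀ x, x ≠ s → x ≠ t → T.Adj s x ∨ T.Adj t x)
    {V : Type} [Fintype V] [Nonempty V] [DecidableEq V] (G : SimpleGraph V) [DecidableRel G.Adj]
    (hdeg : ∀ v : V, 2 * m - 1 ≤ G.degree v) (c : Sym2 V → ZMod m) :
    ∃ f : Fin (m + 1) → V, Function.Injective f ∧
      (∀ a b : Fin (m + 1), T.Adj a b → G.Adj (f a) (f b)) ∧
      ∑ e ∈ T.edgeFinset, c (Sym2.map f e) = 0 := by
  classical
  obtain ⟨La, hLa⟩ : ∃ La : Finset (Fin (m + 1)),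
      La = (Finset.univ \ {s, t}).filter (fun x => T.Adj s x) := ⟨_, rfl⟩
  obtain ⟨Lb, hLb⟩ : ∃ Lb : Finset (Fin (m + 1)),
      Lb = (Finset.univ \ {s, t}).filter (fun x => ¬ T.Adj s x) := ⟨_, rfl⟩
  have hst' : s ≠ t := hst.ne
  have hcard : La.card + Lb.card + 1 = m := by
    rw [hLa, hLb, Finset.card_filter_add_card_filter_not]
    have h1 := card_pair_sdiff (Finset.mem_univ s) (Finset.mem_univ t) hst'
    rw [Finset.card_univ, Fintype.card_fin] at h1
    omega
  have hcopy : Copy G c La.card Lb.card := by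
    rcases le_total Lb.card La.card with h | h
    · exact host hm hcard h hdeg
    · exact copy_swap (host hm (by omega) h hdeg)
  obtain ⟨u, v, huv, A, hA, B, hB, hAc, hBc, hd, hs⟩ := hcopy
  obtain ⟨φ, hφ1, hφ2, hφ3⟩ := exists_map La A hAc.symm u
  obtain ⟨ψ, hψ1, hψ2, hψ3⟩ := exists_map Lb B hBc.symm u
  have memLa : ∀ x, x ∈ La ↔ x ≠ s ∧ x ≠ t ∧ T.Adj s x := by
    intro x
    rw [hLa]
    simp only [Finset.mem_filter, Finset.mem_sdiff, Finset.mem_univ, true_and, Finset.mem_insert,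
      Finset.mem_singleton, not_or, and_assoc]
  have memLb : ∀ x, x ∈ Lb ↔ x ≠ s ∧ x ≠ t ∧ ¬ T.Adj s x := by
    intro x
    rw [hLb]
    simp only [Finset.mem_filter, Finset.mem_sdiff, Finset.mem_univ, true_and, Finset.mem_insert,
      Finset.mem_singleton, not_or, and_assoc]
  obtain ⟨f, hf⟩ : ∃ f : Fin (m + 1) → V, ∀ x, f x = if x = s then u else if x = t then v else
      if x ∈ La then φ x else ψ x := ⟨_, fun _ => rfl⟩
  have hfs : f s = u := by rw [hf, if_pos rfl]
  have hft : f t = v := by rw [hf, if_neg hst'.symm, if_pos rfl]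
  have hfa : ∀ x ∈ La, f x = φ x := by
    intro x hx
    have h1 := (memLa x).1 hx
    rw [hf, if_neg h1.1, if_neg h1.2.1, if_pos hx]
  have hfb : ∀ x ∈ Lb, f x = ψ x := by
    intro x hx
    have h1 := (memLb x).1 hx
    rw [hf, if_neg h1.1, if_neg h1.2.1, if_neg]
    intro h2
    exact h1.2.2 ((memLa x).1 h2).2.2
  have hcases : ∀ x, x = s ∨ x = t ∨ x ∈ La ∨ x ∈ Lb := by
    intro x
    by_cases h1 : x = s
    · exact Or.inl h1
    · by_cases h2 : x = t
      · exact Or.inr (Or.inl h2)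
      · by_cases h3 : T.Adj s x
        · exact Or.inr (Or.inr (Or.inl ((memLa x).2 ⟨h1, h2, h3⟩)))
        · exact Or.inr (Or.inr (Or.inr ((memLb x).2 ⟨h1, h2, h3⟩)))
  have huA : u ∉ A := by
    intro h
    have h1 := (Finset.mem_erase.1 (hA h)).2
    rw [SimpleGraph.mem_neighborFinset] at h1
    exact G.loopless.irrefl u h1
  have hvA : v ∉ A := fun h => (Finset.mem_erase.1 (hA h)).1 rfl
  have huB : u ∉ B := fun h => (Finset.mem_erase.1 (hB h)).1 rfl
  have hvB : v ∉ B := by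
    intro h
    have h1 := (Finset.mem_erase.1 (hB h)).2
    rw [SimpleGraph.mem_neighborFinset] at h1
    exact G.loopless.irrefl v h1
  have hinj : Function.Injective f := by
    intro x y hxy
    rcases hcases x with rfl | rfl | hx | hx <;> rcases hcases y with rfl | rfl | hy | hy
    · rfl
    · rw [hfs, hft] at hxy
      exact absurd hxy huv.ne
    · rw [hfs, hfa y hy] at hxy
      exact absurd (hφ1 y hy) (by rw [← hxy]; exact huA)
    · rw [hfs, hfb y hy] at hxy
      exact absurd (hψ1 y hy) (by rw [← hxy]; exact huB)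
    · rw [hfs, hft] at hxy
      exact absurd hxy.symm huv.ne
    · rfl
    · rw [hft, hfa y hy] at hxy
      exact absurd (hφ1 y hy) (by rw [← hxy]; exact hvA)
    · rw [hft, hfb y hy] at hxy
      exact absurd (hψ1 y hy) (by rw [← hxy]; exact hvB)
    · rw [hfs, hfa x hx] at hxy
      exact absurd (hφ1 x hx) (by rw [hxy]; exact huA)
    · rw [hft, hfa x hx] at hxy
      exact absurd (hφ1 x hx) (by rw [hxy]; exact hvA)
    · rw [hfa x hx, hfa y hy] at hxy
      exact hφ2 hx hy hxy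
    · rw [hfa x hx, hfb y hy] at hxy
      exact absurd (hψ1 y hy) (by
        rw [← hxy]
        exact Finset.disjoint_left.1 hd (hφ1 x hx))
    · rw [hfs, hfb x hx] at hxy
      exact absurd (hψ1 x hx) (by rw [hxy]; exact huB)
    · rw [hft, hfb x hx] at hxy
      exact absurd (hψ1 x hx) (by rw [hxy]; exact hvB)
    · rw [hfb x hx, hfa y hy] at hxy
      exact absurd (hψ1 x hx) (by
        rw [hxy]
        exact Finset.disjoint_left.1 hd (hφ1 y hy))
    · rw [hfb x hx, hfb y hy] at hxy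
      exact hψ2 hx hy hxy
  obtain ⟨E1, hE1⟩ : ∃ E1 : Finset (Sym2 (Fin (m + 1))), E1 = La.image (fun x => s(s, x)) :=
    ⟨_, rfl⟩
  obtain ⟨E2, hE2⟩ : ∃ E2 : Finset (Sym2 (Fin (m + 1))), E2 = Lb.image (fun x => s(t, x)) :=
    ⟨_, rfl⟩
  have inj1 : Function.Injective (fun x : Fin (m + 1) => s(s, x)) := fun x y h =>
    Sym2.congr_right.1 h
  have inj2 : Function.Injective (fun x : Fin (m + 1) => s(t, x)) := fun x y h =>
    Sym2.congr_right.1 h
  have hdis : Disjoint E1 E2 := by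
    rw [Finset.disjoint_left]
    intro e h1 h2
    rw [hE1] at h1
    rw [hE2] at h2
    obtain ⟨x, hx, rfl⟩ := Finset.mem_image.1 h1
    obtain ⟨y, hy, hxy⟩ := Finset.mem_image.1 h2
    rw [Sym2.eq_iff] at hxy
    rcases hxy with ⟨h3, -⟩ | ⟨-, h3⟩
    · exact hst' h3.symm
    · exact ((memLb y).1 hy).1 h3
  have hnot : s(s, t) ∉ E1 ∪ E2 := by
    intro h
    rw [Finset.mem_union, hE1, hE2, Finset.mem_image, Finset.mem_image] at h
    rcases h with ⟨x, hx, hxe⟩ | ⟨x, hx, hxe⟩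
    · exact ((memLa x).1 hx).2.1 (Sym2.congr_right.1 hxe)
    · rw [Sym2.eq_iff] at hxe
      rcases hxe with ⟨h3, -⟩ | ⟨-, h3⟩
      · exact hst' h3.symm
      · exact ((memLb x).1 hx).1 h3
  have hE : insert s(s, t) (E1 ∪ E2) = T.edgeFinset := by
    apply Finset.eq_of_subset_of_card_le
    · intro e he
      rw [SimpleGraph.mem_edgeFinset]
      rw [Finset.mem_insert, Finset.mem_union, hE1, hE2, Finset.mem_image, Finset.mem_image] at he
      rcases he with rfl | ⟨x, hx, rfl⟩ | ⟨x, hx, rfl⟩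
      · exact hst
      · exact ((memLa x).1 hx).2.2
      · have h1 := (memLb x).1 hx
        rcases hdom x h1.1 h1.2.1 with h2 | h2
        · exact absurd h2 h1.2.2
        · exact h2
    · rw [Finset.card_insert_of_notMem hnot, Finset.card_union_of_disjoint hdis, hE1, hE2,
        Finset.card_image_of_injective _ inj1, Finset.card_image_of_injective _ inj2]
      have h1 := hT.card_edgeFinset
      rw [Fintype.card_fin] at h1
      omega
  have hadj : ∀ e ∈ T.edgeFinset, Sym2.map f e ∈ G.edgeSet := by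
    intro e he
    rw [← hE, Finset.mem_insert, Finset.mem_union, hE1, hE2, Finset.mem_image,
      Finset.mem_image] at he
    rcases he with rfl | ⟨x, hx, rfl⟩ | ⟨x, hx, rfl⟩
    · rw [Sym2.map_mk, hfs, hft]
      exact huv
    · rw [Sym2.map_mk, hfs, hfa x hx]
      have h1 := (Finset.mem_erase.1 (hA (hφ1 x hx))).2
      rw [SimpleGraph.mem_neighborFinset] at h1
      exact h1
    · rw [Sym2.map_mk, hft, hfb x hx]
      have h1 := (Finset.mem_erase.1 (hB (hψ1 x hx))).2
      rw [SimpleGraph.mem_neighborFinset] at h1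
      exact h1
  refine ⟨f, hinj, ?_, ?_⟩
  · intro x y hxy
    have h1 := hadj s(x, y) (by rw [SimpleGraph.mem_edgeFinset]; exact hxy)
    rw [Sym2.map_mk] at h1
    exact h1
  · rw [← hE, Finset.sum_insert hnot, Finset.sum_union hdis, hE1, hE2,
      Finset.sum_image (fun x _ y _ h => inj1 h), Finset.sum_image (fun x _ y _ h => inj2 h)]
    have h1 : ∑ x ∈ La, c (Sym2.map f s(s, x)) = ∑ y ∈ A, c s(u, y) := by
      apply Finset.sum_nbij φ hφ1 hφ2 hφ3
      intro x hx
      rw [Sym2.map_mk, hfs, hfa x hx]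
    have h2 : ∑ x ∈ Lb, c (Sym2.map f s(t, x)) = ∑ y ∈ B, c s(v, y) := by
      apply Finset.sum_nbij ψ hψ1 hψ2 hψ3
      intro x hx
      rw [Sym2.map_mk, hft, hfb x hx]
    rw [h1, h2, Sym2.map_mk, hfs, hft, ← add_assoc]
    exact hs

end Pool.Agent.Helper58.DS
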